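import Mathlib

namespace Pool.Agent.Results.MP_33b0ad_co.Cex

open SimpleGraph Finset

/-- the `m × n` grid graph -/
def grid (m n : ℕ) : SimpleGraph (Fin m × Fin n) := pathGraph m □ pathGraph n

variable {V : Type} [DecidableEq V]

/-- take two pebbles off `x`, put one on `y` -/
def mv (P : V → ℕ) (x y : V) : V → ℕ :=
  fun z => if z = x then P z - 2 else if z = y then P z + 1 else P z

def Move (G : SimpleGraph V) (P Q : V → ℕ) : Prop :=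
  ∃ x y, G.Adj x y ∧ 2 ≤ P x ∧ Q = mv P x y

def Solvable (G : SimpleGraph V) (P : V → ℕ) : Prop :=
  ∀ y, ∃ Q, Relation.ReflTransGen (Move G) P Q ∧ 1 ≤ Q y

noncomputable def value [Fintype V] (G : SimpleGraph V) (P : V → ℕ) (x : V) : ℝ :=
  ∑ y, (P y : ℝ) * (2 : ℝ) ^ (-(G.dist x y : ℤ))

def Interior {m n : ℕ} (x : Fin m × Fin n) : Prop :=
  0 < x.1.val ∧ x.1.val + 1 < m ∧ 0 < x.2.val ∧ x.2.val + 1 < n

def run (G : SimpleGraph V) [DecidableRel G.Adj] (t : V) : List (V × V) → (V → ℕ) → Bool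
  | [], P => decide (1 ≤ P t)
  | (x, y) :: l, P => decide (G.Adj x y) && decide (2 ≤ P x) && run G t l (mv P x y)

lemma run_ok (G : SimpleGraph V) [DecidableRel G.Adj] (t : V) (l : List (V × V)) :
    ∀ P, run G t l P = true → ∃ Q, Relation.ReflTransGen (Move G) P Q ∧ 1 ≤ Q t := by
  induction l with
  | nil => intro P h; exact ⟨P, .refl, by simpa [run] using h⟩
  | cons e l ih =>
    obtain ⟨x, y⟩ := e
    intro P h
    simp only [run, Bool.and_eq_true, decide_eq_true_eq] at h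
    obtain ⟨Q, h1, h2⟩ := ih _ h.2
    exact ⟨Q, .head ⟨x, y, h.1.1, h.1.2, rfl⟩ h1, h2⟩

lemma grid_adj {m n : ℕ} (a b : Fin m × Fin n) : (grid m n).Adj a b ↔
    ((a.1.val + 1 = b.1.val ∨ b.1.val + 1 = a.1.val) ∧ a.2 = b.2) ∨
    ((a.2.val + 1 = b.2.val ∨ b.2.val + 1 = a.2.val) ∧ a.1 = b.1) := by
  simp only [grid, boxProd_adj, pathGraph_adj]

instance (m n : ℕ) : DecidableRel (grid m n).Adj := fun a b =>
  decidable_of_iff _ (grid_adj a b).symm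

lemma walk_ge {m n : ℕ} {a b : Fin m × Fin n} (p : (grid m n).Walk a b) :
    |(a.1.val : ℤ) - b.1.val| + |(a.2.val : ℤ) - b.2.val| ≤ p.length := by
  induction p with
  | nil => simp
  | @cons u v w h p ih =>
    rw [grid_adj] at h
    simp only [Walk.length_cons]
    push_cast
    rcases h with ⟨h | h, h2⟩ | ⟨h | h, h2⟩ <;> rw [h2] <;> grind

lemma dist_ge (a b : Fin 5 × Fin 4) :
    |(a.1.val : ℤ) - b.1.val| + |(a.2.val : ℤ) - b.2.val| ≤ (grid 5 4).dist a b := by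
  have hc : (grid 5 4).Connected := (pathGraph_connected 4).boxProd (pathGraph_connected 3)
  obtain ⟨p, hp⟩ := hc.exists_walk_length_eq_dist a b
  rw [← hp]
  exact walk_ge p

def P0 (x : Fin 5 × Fin 4) : ℕ :=
  ![![2, 0, 0, 2], ![0, 0, 0, 0], ![1, 0, 0, 0], ![1, 0, 0, 0], ![1, 0, 0, 8]] x.1 x.2

def moves (x : Fin 5 × Fin 4) : List ((Fin 5 × Fin 4) × (Fin 5 × Fin 4)) :=
  ![
    ![[], [((0,0),(0,1))], [((0,3),(0,2))], []],
    ![[((0,0),(1,0))], [((0,0),(1,0)), ((4,3),(4,2)), ((4,3),(4,2)), ((4,2),(4,1)), ((4,3),(4,2)), ((4,3),(4,2)), ((4,2),(4,1)), ((4,1),(4,0)), ((4,0),(3,0)), ((3,0),(2,0)), ((2,0),(1,0)), ((1,0),(1,1))], [((0,3),(1,3)), ((4,3),(3,3)), ((4,3),(3,3)), ((3,3),(2,3)), ((4,3),(3,3)), ((4,3),(3,3)), ((3,3),(2,3)), ((2,3),(1,3)), ((1,3),(1,2))], [((0,3),(1,3))]],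
    ![[], [((4,3),(4,2)), ((4,3),(4,2)), ((4,2),(4,1)), ((4,3),(4,2)), ((4,3),(4,2)), ((4,2),(4,1)), ((4,1),(4,0)), ((4,0),(3,0)), ((3,0),(2,0)), ((2,0),(2,1))], [((4,3),(3,3)), ((4,3),(3,3)), ((3,3),(2,3)), ((4,3),(3,3)), ((4,3),(3,3)), ((3,3),(2,3)), ((2,3),(2,2))], [((4,3),(3,3)), ((4,3),(3,3)), ((3,3),(2,3))]],
    ![[], [((4,3),(3,3)), ((4,3),(3,3)), ((3,3),(3,2)), ((4,3),(3,3)), ((4,3),(3,3)), ((3,3),(3,2)), ((3,2),(3,1))], [((4,3),(3,3)), ((4,3),(3,3)), ((3,3),(3,2))], [((4,3),(3,3))]],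
    ![[], [((4,3),(4,2)), ((4,3),(4,2)), ((4,2),(4,1))], [((4,3),(4,2))], []]] x.1 x.2

theorem result : ¬ ∀ (m n : ℕ) (P : Fin m × Fin n → ℕ) (X : Fin m × Fin n), 1 ≤ m → 1 ≤ n →
    Solvable (grid m n) P → Interior X → 3 / 2 ≤ value (grid m n) P X := by
  intro h
  have h1 : ∀ y, run (grid 5 4) y (moves y) P0 = true := by decide +kernel
  have h2 := h 5 4 P0 (1, 1) (by norm_num) (by norm_num) (fun y => run_ok _ y _ _ (h1 y))
    (by simp [Interior])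
  have h3 : value (grid 5 4) P0 (1, 1) ≤
      ∑ y : Fin 5 × Fin 4, (P0 y : ℝ) * (2 : ℝ) ^ (-(|(1 : ℤ) - y.1.val| + |(1 : ℤ) - y.2.val|)) := by
    refine Finset.sum_le_sum fun y _ => mul_le_mul_of_nonneg_left ?_ (Nat.cast_nonneg _)
    refine zpow_le_zpow_right₀ (by norm_num) (neg_le_neg ?_)
    simpa using dist_ge (1, 1) y
  have h4 : (∑ y : Fin 5 × Fin 4,
      (P0 y : ℚ) * (2 : ℚ) ^ (-(|(1 : ℤ) - y.1.val| + |(1 : ℤ) - y.2.val|))) = 23 / 16 := by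
    decide +kernel
  have h5 : (∑ y : Fin 5 × Fin 4,
      (P0 y : ℝ) * (2 : ℝ) ^ (-(|(1 : ℤ) - y.1.val| + |(1 : ℤ) - y.2.val|))) = 23 / 16 := by
    have := congrArg (fun q : ℚ => (q : ℝ)) h4
    push_cast at this
    exact this
  rw [h5] at h3
  linarith

end Pool.Agent.Results.MP_33b0ad_co.Cex
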